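import Pool.Agent.W528.ZC.Stm

/-!
Project ZC: one-parameter unipotent groups.
-/

set_option autoImplicit false
set_option linter.unusedSectionVars false

namespace Pool.Agent.W239.ZC.UN

open MvPolynomial Pool.Agent.W528.ZC

noncomputable section

variable {K : Type} [Field K] {ι : Type} [Fintype ι] [DecidableEq ι]

/-- the flow of the derivation -/
def Phi (n : Matrix ι ι K) :
    MvPolynomial (ι × ι) K →ₐ[K] Polynomial (MvPolynomial (ι × ι) K) :=
  aeval fun p => Polynomial.C (X p) + Polynomial.X * Polynomial.C (D n (X p))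

theorem D_X (n : Matrix ι ι K) (p : ι × ι) : D n (X p) = ∑ j, C (n j p.2) * X (p.1, j) := by
  unfold D
  rw [mkDerivation_X]

theorem D_D_X (n : Matrix ι ι K) (hn : n * n = 0) (p : ι × ι) : D n (D n (X p)) = 0 := by
  rw [D_X, map_sum]
  have h1 : ∀ j, D n (C (n j p.2) * X (p.1, j) : MvPolynomial (ι × ι) K) =
      ∑ k, C (n k j * n j p.2) * X (p.1, k) := by
    intro j
    rw [← smul_eq_C_mul, Derivation.map_smul, D_X, Finset.smul_sum]
    refine Finset.sum_congr rfl fun k _ => ?_
    rw [smul_eq_C_mul, ← mul_assoc, ← C_mul]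
    simp only
    rw [mul_comm (n j p.2)]
  simp only [h1]
  rw [Finset.sum_comm]
  refine Finset.sum_eq_zero fun k _ => ?_
  rw [← Finset.sum_mul, ← map_sum]
  have h2 : ∑ j, n k j * n j p.2 = 0 := by
    have := congrFun (congrFun hn k) p.2
    rw [Matrix.mul_apply] at this
    exact this
  rw [h2, C_0, zero_mul]

theorem Phi_X (n : Matrix ι ι K) (p : ι × ι) :
    Phi n (X p) = Polynomial.C (X p) + Polynomial.X * Polynomial.C (D n (X p)) := by
  unfold Phi
  rw [aeval_X]

theorem Phi_C (n : Matrix ι ι K) (a : K) : Phi n (C a) = Polynomial.C (C a) := by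
  have := (Phi n).commutes a
  rw [MvPolynomial.algebraMap_eq] at this
  rw [this]
  rfl

theorem Phi_DX (n : Matrix ι ι K) (hn : n * n = 0) (p : ι × ι) :
    Phi n (D n (X p)) = Polynomial.C (D n (X p)) := by
  have h1 : Phi n (D n (X p)) = Polynomial.C (D n (X p)) + Polynomial.X *
      Polynomial.C (D n (D n (X p))) := by
    conv_lhs => rw [D_X, map_sum]
    have h2 : ∀ j, Phi n (C (n j p.2) * X (p.1, j)) = Polynomial.C (C (n j p.2) * X (p.1, j)) +
        Polynomial.X * Polynomial.C (D n (C (n j p.2) * X (p.1, j))) := by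
      intro j
      rw [map_mul, Phi_C, Phi_X, ← smul_eq_C_mul, Derivation.map_smul, smul_eq_C_mul,
        smul_eq_C_mul, Polynomial.C_mul, Polynomial.C_mul]
      ring
    rw [Finset.sum_congr rfl fun j _ => h2 j, Finset.sum_add_distrib, ← Finset.mul_sum,
      ← map_sum, ← map_sum, ← map_sum, ← D_X]
  rw [h1, D_D_X n hn, map_zero, mul_zero, add_zero]

theorem deriv_Phi (n : Matrix ι ι K) (hn : n * n = 0) (f : MvPolynomial (ι × ι) K) :
    Polynomial.derivative (Phi n f) = Phi n (D n f) := by
  induction f using MvPolynomial.induction_on with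
  | C a =>
    rw [Phi_C, Polynomial.derivative_C]
    have : D n (C a : MvPolynomial (ι × ι) K) = 0 := by
      rw [← MvPolynomial.algebraMap_eq]
      exact Derivation.map_algebraMap _ _
    rw [this, map_zero]
  | add f g hf hg => rw [map_add, Polynomial.derivative_add, hf, hg, map_add, map_add]
  | mul_X f p hf =>
    rw [map_mul, Polynomial.derivative_mul, hf, Derivation.leibniz, map_add, smul_eq_mul,
      smul_eq_mul, map_mul, map_mul, Phi_DX n hn, Phi_X]
    simp only [Polynomial.derivative_add, Polynomial.derivative_mul, Polynomial.derivative_C,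
      Polynomial.derivative_X]
    ring

theorem iter_Phi (n : Matrix ι ι K) (hn : n * n = 0) (f : MvPolynomial (ι × ι) K) (k : ℕ) :
    Polynomial.derivative^[k] (Phi n f) = Phi n ((D n)^[k] f) := by
  induction k generalizing f with
  | zero => rfl
  | succ k ih => rw [Function.iterate_succ_apply, deriv_Phi n hn, ih, Function.iterate_succ_apply]

theorem coeff_zero_Phi (n : Matrix ι ι K) (f : MvPolynomial (ι × ι) K) :
    (Phi n f).coeff 0 = f := by
  rw [Polynomial.coeff_zero_eq_eval_zero]
  induction f using MvPolynomial.induction_on with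
  | C a => rw [Phi_C, Polynomial.eval_C]
  | add f g hf hg => rw [map_add, Polynomial.eval_add, hf, hg]
  | mul_X f p hf => 
    rw [map_mul, Polynomial.eval_mul, hf, Phi_X]
    simp

theorem coeff_Phi (n : Matrix ι ι K) (hn : n * n = 0) (f : MvPolynomial (ι × ι) K) (k : ℕ) :
    (k.factorial : K) • (Phi n f).coeff k = (D n)^[k] f := by
  have h1 := Polynomial.coeff_iterate_derivative (k := k) (Phi n f) 0
  rw [iter_Phi n hn, coeff_zero_Phi, zero_add, Nat.descFactorial_self] at h1
  rw [h1, Nat.cast_smul_eq_nsmul]

theorem eval_Phi (n : Matrix ι ι K) (t : K) (f : MvPolynomial (ι × ι) K) :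
    (Phi n f).eval (C t) = sub 1 (1 + t • n) f := by
  induction f using MvPolynomial.induction_on with
  | C a =>
    rw [Phi_C, Polynomial.eval_C]
    have := (sub (1 : Matrix ι ι K) (1 + t • n)).commutes a
    rw [MvPolynomial.algebraMap_eq] at this
    exact this.symm
  | add f g hf hg => rw [map_add, Polynomial.eval_add, hf, hg, map_add]
  | mul_X f p hf =>
    rw [map_mul, Polynomial.eval_mul, hf, Phi_X, map_mul]
    congr 1
    unfold sub
    rw [aeval_X]
    have h1 : ∀ i j, (C ((1 : Matrix ι ι K) p.1 i * (1 + t • n) j p.2) *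
        X (i, j) : MvPolynomial (ι × ι) K) =
        if p.1 = i then C ((1 + t • n) j p.2) * X (i, j) else 0 := by
      intro i j
      by_cases h : p.1 = i
      · rw [if_pos h, h, Matrix.one_apply_eq, one_mul]
      · rw [if_neg h, Matrix.one_apply_ne h, zero_mul, C_0, zero_mul]
    simp only [h1]
    rw [Finset.sum_comm]
    simp only [Finset.sum_ite_eq, Finset.mem_univ, if_true]
    rw [D_X]
    simp only [Polynomial.eval_add, Polynomial.eval_C, Polynomial.eval_mul, Polynomial.eval_X]
    have h2 : ∀ j, (C ((1 + t • n) j p.2) * X (p.1, j) : MvPolynomial (ι × ι) K) =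
        (if j = p.2 then X (p.1, j) else 0) + C t * (C (n j p.2) * X (p.1, j)) := by
      intro j
      rw [Matrix.add_apply, Matrix.smul_apply, smul_eq_mul, C_add, add_mul, C_mul, mul_assoc]
      congr 1
      by_cases h : j = p.2
      · rw [if_pos h, h, Matrix.one_apply_eq, C_1, one_mul]
      · rw [if_neg h, Matrix.one_apply_ne h, C_0, zero_mul]
    simp only [h2]
    rw [Finset.sum_add_distrib, ← Finset.mul_sum]
    simp

theorem eval_eq_sum (P : Polynomial (MvPolynomial (ι × ι) K)) (t : K) :
    P.eval (C t) = ∑ k ∈ Finset.range (P.natDegree + 1), t ^ k • P.coeff k := by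
  rw [Polynomial.eval_eq_sum_range]
  refine Finset.sum_congr rfl fun k _ => ?_
  rw [smul_eq_C_mul, map_pow, mul_comm]

theorem main : UN := by
  intro K _ _ ι _ _ n hn S
  constructor
  · intro hS f hf t
    rw [← eval_Phi, eval_eq_sum]
    refine S.sum_mem fun k _ => S.smul_mem _ ?_
    have h1 : (D n)^[k] f ∈ S := by
      induction k with
      | zero => exact hf
      | succ k ih =>
        rw [Function.iterate_succ_apply']
        exact hS _ (ih (by
          rw [Finset.mem_range] at *
          omega))
    have h2 : (k.factorial : K) ≠ 0 := by exact_mod_cast Nat.factorial_ne_zero k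
    have h3 : (Phi n f).coeff k = (k.factorial : K)⁻¹ • ((D n)^[k] f) := by
      rw [← coeff_Phi n hn, smul_smul, inv_mul_cancel₀ h2, one_smul]
    rw [h3]
    exact S.smul_mem _ h1
  · intro f hinf
    have hD : D n f = (Phi n f).coeff 1 := by
      have h1 := coeff_Phi n hn f 1
      rw [Nat.factorial_one, Nat.cast_one, one_smul] at h1
      rw [h1]
      rfl
    rw [hD]
    by_contra hcon
    obtain ⟨φ, hφ1, hφ2⟩ := Submodule.exists_le_ker_of_notMem hcon
    obtain ⟨P, hP⟩ : ∃ P : Polynomial K, P = ∑ k ∈ Finset.range ((Phi n f).natDegree + 1),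
      Polynomial.monomial k (φ ((Phi n f).coeff k)) := ⟨_, rfl⟩
    have heval : ∀ t : K, P.eval t = φ (sub 1 (1 + t • n) f) := by
      intro t
      rw [← eval_Phi, eval_eq_sum, map_sum, hP, Polynomial.eval_finsetSum]
      refine Finset.sum_congr rfl fun k _ => ?_
      rw [Polynomial.eval_monomial, map_smul, smul_eq_mul, mul_comm]
    have hzero : P = 0 := by
      refine Polynomial.eq_zero_of_infinite_isRoot P (hinf.mono fun t ht => ?_)
      show P.eval t = 0
      rw [heval]
      exact hφ2 ht
    have hc : P.coeff 1 = φ ((Phi n f).coeff 1) := by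
      rw [hP, Polynomial.finsetSum_coeff]
      simp only [Polynomial.coeff_monomial]
      rw [Finset.sum_ite_eq']
      split_ifs with h
      · rfl
      · have h1 : (Phi n f).coeff 1 = 0 := by
          apply Polynomial.coeff_eq_zero_of_natDegree_lt
          rw [Finset.mem_range] at h
          omega
        rw [h1, map_zero]
    rw [hzero, Polynomial.coeff_zero] at hc
    exact hφ1 hc.symm

end

end Pool.Agent.W239.ZC.UN
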